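import Pool.Agent.Helper56.Havet.Reduce

/-!
# Oriented trees with few inner vertices in digraphs of large chromatic number
-/

set_option autoImplicit false

namespace Pool.Helper56.FewInnerOut

open Finset Pool.Helper56.Havet
open scoped Classical

/-- The reduction to the inner tree. -/
theorem reduction (k ℓ m : ℕ) (hℓ : ℓ < k) (T : Digraph (Fin (k + 1)))
    (hT : ∀ a b : Fin (k + 1), T.Adj a b → ¬ T.Adj b a)
    (htree : (SimpleGraph.fromRel T.Adj).IsTree)
    (hleaf : {v : Fin (k + 1) | ((SimpleGraph.fromRel T.Adj).neighborSet v).ncard = 1}.ncard = ℓ)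
    (hinner : ∀ (V : Type) [Fintype V] (D : Digraph V),
      (m : ℕ∞) ≤ (SimpleGraph.fromRel D.Adj).chromaticNumber →
      ∃ φ : Fin (k + 1) → V,
        Set.InjOn φ {v | ((SimpleGraph.fromRel T.Adj).neighborSet v).ncard ≠ 1} ∧
        ∀ a b : Fin (k + 1), ((SimpleGraph.fromRel T.Adj).neighborSet a).ncard ≠ 1 →
          ((SimpleGraph.fromRel T.Adj).neighborSet b).ncard ≠ 1 →
          T.Adj a b → D.Adj (φ a) (φ b))
    (V : Type) [Fintype V] (D : Digraph V)
    (hchi : ((2 * ℓ + 4 * (k + 1 - ℓ) + 2 * m - 7 : ℕ) : ℕ∞) ≤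
      (SimpleGraph.fromRel D.Adj).chromaticNumber) :
    ∃ f : Fin (k + 1) → V, Function.Injective f ∧
        ∀ a b : Fin (k + 1), T.Adj a b → D.Adj (f a) (f b) := by
  obtain ⟨s, hs⟩ : ∃ s, k + 1 - ℓ = s := ⟨_, rfl⟩
  have hs2 : 2 ≤ s := by omega
  rw [hs] at hchi
  set H := SimpleGraph.fromRel T.Adj with hH
  have hc : H.Preconnected := htree.1.preconnected
  have hadj : ∀ v w, H.Adj v w ↔ T.Adj v w ∨ T.Adj w v := by
    intro v w
    rw [hH, SimpleGraph.fromRel_adj]
    constructor
    · exact fun h => h.2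
    · intro h
      refine ⟨?_, h⟩
      rintro rfl
      rcases h with h | h <;> exact hT _ _ h h
  -- the inner vertices
  obtain ⟨N, hN⟩ : ∃ N : Finset (Fin (k + 1)), N = univ.filter
    (fun v => (H.neighborSet v).ncard ≠ 1) := ⟨_, rfl⟩
  have memN : ∀ v, v ∈ N ↔ (H.neighborSet v).ncard ≠ 1 := by
    intro v; rw [hN, mem_filter]; simp
  have hLf : (univ.filter (fun v => (H.neighborSet v).ncard = 1)).card = ℓ := by
    rw [← hleaf, ← Set.ncard_coe_finset]
    congr 1
    ext v; simp
  have hNcard : N.card = s := by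
    have h1 := card_filter_add_card_filter_not (s := (univ : Finset (Fin (k + 1))))
      (fun v => (H.neighborSet v).ncard = 1)
    rw [card_univ, Fintype.card_fin, hLf] at h1
    have h2 : N.card = (univ.filter (fun v => ¬ (H.neighborSet v).ncard = 1)).card := by rw [hN]
    omega
  have hNc : ∀ w, w ∉ N ↔ (H.neighborSet w).ncard = 1 := by
    intro w; rw [memN, not_not]
  -- `m` is at least two
  have hm2 : 2 ≤ m := by
    by_contra hm
    obtain ⟨φ, hφ, _⟩ := hinner PUnit (Digraph.mk fun _ _ => False) (by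
      have h1 : (SimpleGraph.fromRel (fun _ _ : PUnit => False)).Colorable 1 :=
        ⟨SimpleGraph.Coloring.mk (fun _ => (0 : Fin 1)) (by
          intro v w hvw
          rw [SimpleGraph.fromRel_adj] at hvw
          exact absurd hvw.2 (by simp))⟩
      have h2 := h1.chromaticNumber_pos
      have h3 : (m : ℕ∞) ≤ 1 := by
        have : m ≤ 1 := by omega
        exact_mod_cast this
      exact h3.trans (Order.one_le_iff_pos.2 h2))
    obtain ⟨a, ha, b, hb, hab⟩ := one_lt_card.1 (show 1 < N.card by omega)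
    exact hab (hφ ((memN a).1 ha) ((memN b).1 hb) rfl)
  have hzex : ∀ w, ∃ z, w ∉ N → ∀ y, H.Adj w y ↔ y = z := by
    intro w
    by_cases hw : w ∈ N
    · exact ⟨w, fun h => absurd hw h⟩
    · obtain ⟨z, hz⟩ := Set.ncard_eq_one.1 ((hNc w).1 hw)
      refine ⟨z, fun _ y => ?_⟩
      have : y ∈ H.neighborSet w ↔ y ∈ ({z} : Set _) := by rw [hz]
      exact this
  choose z hz using hzex
  have hll : ∀ v w, v ∉ N → w ∉ N → ¬ H.Adj v w := by
    intro v w hv hw hvw
    have h1 := leaf_leaf hc ((hNc v).1 hv) ((hNc w).1 hw) hvw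
    have h2 : N = ∅ := by
      rw [eq_empty_iff_forall_notMem]
      intro x hx
      rcases h1 x with h | h
      · rw [h] at hx; exact hv hx
      · rw [h] at hx; exact hw hx
    rw [h2, card_empty] at hNcard
    omega
  have hzN : ∀ w, w ∉ N → z w ∈ N := by
    intro w hw
    by_contra h
    exact hll w (z w) hw h ((hz w hw _).2 rfl)
  have hzT : ∀ w, w ∉ N → (T.Adj (z w) w ∨ T.Adj w (z w)) := by
    intro w hw
    exact ((hadj w (z w)).1 ((hz w hw _).2 rfl)).symm
  have honly : ∀ v w, H.Adj v w → (v ∈ N ∧ w ∈ N) ∨ (v ∈ N ∧ w ∉ N ∧ z w = v) ∨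
      (w ∈ N ∧ v ∉ N ∧ z v = w) := by
    intro v w hvw
    by_cases hv : v ∈ N <;> by_cases hw : w ∈ N
    · exact Or.inl ⟨hv, hw⟩
    · exact Or.inr (Or.inl ⟨hv, hw, ((hz w hw v).1 hvw.symm).symm⟩)
    · exact Or.inr (Or.inr ⟨hw, hv, ((hz v hv w).1 hvw).symm⟩)
    · exact absurd hvw (hll v w hv hw)
  -- the out-leaves and the in-leaves
  obtain ⟨A, hA⟩ : ∃ A, (univ.filter (fun w => w ∉ N ∧ T.Adj (z w) w)).card = A := ⟨_, rfl⟩
  obtain ⟨B, hB⟩ : ∃ B, (univ.filter (fun w => w ∉ N ∧ T.Adj w (z w))).card = B := ⟨_, rfl⟩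
  have hAB : A + B = ℓ := by
    rw [← hA, ← hB, ← hLf, ← card_union_of_disjoint]
    · congr 1
      ext w
      simp only [mem_union, mem_filter, mem_univ, true_and, ← hNc]
      constructor
      · rintro (h | h) <;> exact h.1
      · intro h
        rcases hzT w h with h' | h'
        · exact Or.inl ⟨h, h'⟩
        · exact Or.inr ⟨h, h'⟩
    · rw [disjoint_filter]
      rintro w _ ⟨_, h1⟩ ⟨_, h2⟩
      exact hT _ _ h1 h2
  obtain ⟨n, hn⟩ : ∃ n, 2 * ℓ + 4 * s + 2 * m - 7 = n + 1 :=
    ⟨2 * ℓ + 4 * s + 2 * m - 8, by omega⟩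
  rw [hn] at hchi
  obtain ⟨V', _, O, g, hg, hgD, hO, hcol, hdeg⟩ := reduce D.Adj n hchi
  suffices hsuff : ∃ f : Fin (k + 1) → V', Function.Injective f ∧
      ∀ v w, T.Adj v w → O (f v) (f w) by
    obtain ⟨f, hf, hfO⟩ := hsuff
    exact ⟨fun v => g (f v), hg.comp hf, fun a b hab => hgD _ _ (hfO a b hab)⟩
  -- the inner tree embeds in every part that is not `(m-1)`-colourable
  have hin : ∀ X : Finset V', ¬ Col O X (m - 1) → ∃ φ : Fin (k + 1) → V',
      Set.InjOn φ N ∧ (∀ w, φ w ∈ X) ∧ ∀ u ∈ N, ∀ v ∈ N, T.Adj u v → O (φ u) (φ v) := by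
    intro X hX
    have h1 := chrom_of_not_col hO hX
    rw [show m - 1 + 1 = m by omega] at h1
    obtain ⟨φ, hφ1, hφ2⟩ := hinner {x // x ∈ X} (Digraph.mk fun x y => O x.1 y.1) h1
    refine ⟨fun w => (φ w).1, ?_, fun w => (φ w).2, ?_⟩
    · intro a ha b hb hab
      exact hφ1 ((memN a).1 (mem_coe.1 ha)) ((memN b).1 (mem_coe.1 hb)) (Subtype.ext hab)
    · intro u hu v hv huv
      exact hφ2 u v ((memN u).1 hu) ((memN v).1 hv) huv
  by_cases hX : Col O (univ.filter (fun x => A + s ≤ (No O x).card + 1 ∧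
      k + 1 ≤ (Ni O x).card)) (m - 1)
  · by_cases hY : Col O (univ.filter (fun x => B + s ≤ (Ni O x).card + 1 ∧
        k + 1 ≤ (No O x).card)) (m - 1)
    · exfalso
      have c1 : Col O (univ.filter (fun x => (No O x).card + 1 < A + s)) (2 * (A + s - 2) + 1) := by
        apply col_of_out hO
        intro x hx
        have h1 := (mem_filter.1 hx).2
        have h2 : ((univ.filter (fun x => (No O x).card + 1 < A + s)).filter
            (fun y => O x y)).card ≤ (No O x).card :=
          card_le_card (filter_subset_filter _ (subset_univ _))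
        omega
      have c2 : Col O (univ.filter (fun x => (Ni O x).card + 1 < B + s)) (2 * (B + s - 2) + 1) := by
        apply col_of_in hO
        intro x hx
        have h1 := (mem_filter.1 hx).2
        have h2 : ((univ.filter (fun x => (Ni O x).card + 1 < B + s)).filter
            (fun y => O y x)).card ≤ (Ni O x).card :=
          card_le_card (filter_subset_filter _ (subset_univ _))
        omega
      apply hcol
      refine (((hX.union hY).union c1).union c2).mono ?_ (by omega)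
      intro x _
      simp only [mem_union, mem_filter, mem_univ, true_and]
      have h1 := hdeg x
      by_cases h2 : (No O x).card + 1 < A + s
      · exact Or.inl (Or.inr h2)
      · by_cases h3 : (Ni O x).card + 1 < B + s
        · exact Or.inr h3
        · left; left
          by_cases h4 : k + 1 ≤ (Ni O x).card
          · exact Or.inl ⟨by omega, h4⟩
          · exact Or.inr ⟨by omega, by omega⟩
    · obtain ⟨φ, h1, h2, h3⟩ := hin _ hY
      obtain ⟨f, hf1, hf2⟩ := leaves_embed (R := fun x y => T.Adj y x) (O := fun x y => O y x)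
        (fun x y h h' => hO _ _ h' h) N z hzN (fun w hw => (hzT w hw).symm)
        (fun x y h h' => hT _ _ h' h) (fun v w h => honly v w ((hadj v w).2 (Or.inr h))) φ h1
        (fun u hu v hv h => h3 v hv u hu h)
        (by
          intro u hu
          refine le_trans (le_of_eq ?_) (mem_filter.1 (h2 u)).2.1
          rw [hNcard, ← hB]
          congr!)
        (by
          intro u hu
          rw [Ni_flip, Fintype.card_fin]
          exact (mem_filter.1 (h2 u)).2.2)
      exact ⟨f, hf1, fun v w h => hf2 w v h⟩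
  · obtain ⟨φ, h1, h2, h3⟩ := hin _ hX
    obtain ⟨f, hf1, hf2⟩ := leaves_embed (R := T.Adj) (O := O) hO N z hzN hzT hT
      (fun v w h => honly v w ((hadj v w).2 (Or.inl h))) φ h1 h3
      (by
        intro u hu
        refine le_trans (le_of_eq ?_) (mem_filter.1 (h2 u)).2.1
        rw [hNcard, ← hA]
        congr!)
      (by
        intro u hu
        rw [Fintype.card_fin]
        exact (mem_filter.1 (h2 u)).2.2)
    exact ⟨f, hf1, hf2⟩

/-- **Oriented trees with few inner vertices.** Let `T` be an oriented tree with `k` edges and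
`ℓ < k` leaves, so with `s = k + 1 - ℓ ≥ 2` inner vertices.
(1) If every digraph of chromatic number at least `m` contains the inner tree of `T`, then every
digraph of chromatic number at least `2ℓ + 4s + 2m - 7` contains `T`.
(2) Every digraph of chromatic number at least `2ℓ + 2s² - 3` contains `T`.
(3) If all inner vertices are at distance at most `ρ` from some vertex, then every digraph of
chromatic number at least `2ℓ + 4s + 8ρs - 5` contains `T`. -/
theorem result : ∀ (k ℓ : ℕ), ℓ < k → ∀ (T : Digraph (Fin (k + 1))),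
    (∀ a b : Fin (k + 1), T.Adj a b → ¬ T.Adj b a) →
    (SimpleGraph.fromRel T.Adj).IsTree →
    {v : Fin (k + 1) | ((SimpleGraph.fromRel T.Adj).neighborSet v).ncard = 1}.ncard = ℓ →
    (∀ m : ℕ,
      (∀ (V : Type) [Fintype V] (D : Digraph V),
        (m : ℕ∞) ≤ (SimpleGraph.fromRel D.Adj).chromaticNumber →
        ∃ φ : Fin (k + 1) → V,
          Set.InjOn φ {v | ((SimpleGraph.fromRel T.Adj).neighborSet v).ncard ≠ 1} ∧
          ∀ a b : Fin (k + 1), ((SimpleGraph.fromRel T.Adj).neighborSet a).ncard ≠ 1 →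
            ((SimpleGraph.fromRel T.Adj).neighborSet b).ncard ≠ 1 →
            T.Adj a b → D.Adj (φ a) (φ b)) →
      ∀ (V : Type) [Fintype V] (D : Digraph V),
        ((2 * ℓ + 4 * (k + 1 - ℓ) + 2 * m - 7 : ℕ) : ℕ∞) ≤
          (SimpleGraph.fromRel D.Adj).chromaticNumber →
        ∃ f : Fin (k + 1) → V, Function.Injective f ∧
          ∀ a b : Fin (k + 1), T.Adj a b → D.Adj (f a) (f b)) ∧
    (∀ (V : Type) [Fintype V] (D : Digraph V),
      ((2 * ℓ + 2 * (k + 1 - ℓ) ^ 2 - 3 : ℕ) : ℕ∞) ≤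
        (SimpleGraph.fromRel D.Adj).chromaticNumber →
      ∃ f : Fin (k + 1) → V, Function.Injective f ∧
        ∀ a b : Fin (k + 1), T.Adj a b → D.Adj (f a) (f b)) ∧
    (∀ (r : Fin (k + 1)) (ρ : ℕ),
      (∀ v : Fin (k + 1), ((SimpleGraph.fromRel T.Adj).neighborSet v).ncard ≠ 1 →
        (SimpleGraph.fromRel T.Adj).dist r v ≤ ρ) →
      ∀ (V : Type) [Fintype V] (D : Digraph V),
        ((2 * ℓ + 4 * (k + 1 - ℓ) + 8 * ρ * (k + 1 - ℓ) - 5 : ℕ) : ℕ∞) ≤
          (SimpleGraph.fromRel D.Adj).chromaticNumber →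
        ∃ f : Fin (k + 1) → V, Function.Injective f ∧
          ∀ a b : Fin (k + 1), T.Adj a b → D.Adj (f a) (f b)) := by
  intro k ℓ hℓ T hT htree hleaf
  obtain ⟨s, hs⟩ : ∃ s, k + 1 - ℓ = s := ⟨_, rfl⟩
  have hs2 : 2 ≤ s := by omega
  -- the inner vertices
  obtain ⟨N, hN⟩ : ∃ N : Finset (Fin (k + 1)), N = univ.filter
    (fun v => ((SimpleGraph.fromRel T.Adj).neighborSet v).ncard ≠ 1) := ⟨_, rfl⟩
  have memN : ∀ v, v ∈ N ↔ ((SimpleGraph.fromRel T.Adj).neighborSet v).ncard ≠ 1 := by
    intro v; rw [hN, mem_filter]; simp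
  have hLf : (univ.filter (fun v =>
      ((SimpleGraph.fromRel T.Adj).neighborSet v).ncard = 1)).card = ℓ := by
    rw [← hleaf, ← Set.ncard_coe_finset]
    congr 1
    ext v; simp
  have hNcard : N.card = s := by
    have h1 := card_filter_add_card_filter_not (s := (univ : Finset (Fin (k + 1))))
      (fun v => ((SimpleGraph.fromRel T.Adj).neighborSet v).ncard = 1)
    rw [card_univ, Fintype.card_fin, hLf] at h1
    have h2 : N.card = (univ.filter (fun v =>
      ¬ ((SimpleGraph.fromRel T.Adj).neighborSet v).ncard = 1)).card := by rw [hN]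
    omega
  have hTH : ∀ x y, T.Adj x y → (SimpleGraph.fromRel T.Adj).Adj x y := by
    intro x y h
    rw [SimpleGraph.fromRel_adj]
    refine ⟨?_, Or.inl h⟩
    rintro rfl
    exact hT _ _ h h
  refine ⟨?_, ?_, ?_⟩
  · intro m hm V _ D hD
    exact reduction k ℓ m hℓ T hT htree hleaf hm V D hD
  · intro V _ D hD
    refine reduction k ℓ ((s - 1) ^ 2 + 1) hℓ T hT htree hleaf ?_ V D ?_
    · intro V' _ D' hD'
      obtain ⟨V'', _, O, g, hg, hgD, hO, hcol, -⟩ := reduce D'.Adj _ hD'
      obtain ⟨φ, h1, -, h3⟩ := burr htree T.Adj hT hTH O hO (s - 1) N (by omega) univ hcol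
      refine ⟨fun w => g (φ w), ?_, ?_⟩
      · intro a ha b hb hab
        exact h1 (mem_coe.2 ((memN a).2 ha)) (mem_coe.2 ((memN b).2 hb)) (hg hab)
      · intro a b ha hb hab
        exact hgD _ _ (h3 a ((memN a).2 ha) b ((memN b).2 hb) hab)
    · refine le_trans (le_of_eq ?_) hD
      congr 1
      rw [hs]
      obtain ⟨t, rfl⟩ : ∃ t, s = t + 1 := ⟨s - 1, by omega⟩
      rw [Nat.add_sub_cancel]
      have e1 : (t + 1) ^ 2 = t ^ 2 + 2 * t + 1 := by ring
      rw [e1]
      omega
  · intro r ρ hρ V _ D hD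
    refine reduction k ℓ (ρ * (4 * s) + 1) hℓ T hT htree hleaf ?_ V D ?_
    · intro V' _ D' hD'
      obtain ⟨V'', _, O, g, hg, hgD, hO, hcol, -⟩ := reduce D'.Adj _ hD'
      obtain ⟨L, hL0, -, hL⟩ := exists_levels hO s (by omega) ρ univ hcol
      obtain ⟨φ, h1, -, h3⟩ := embed_levels htree T.Adj hT hTH O r ρ s (by omega) L hL0 hL
        s N hNcard le_rfl (fun w hw => hρ w ((memN w).1 hw))
      refine ⟨fun w => g (φ w), ?_, ?_⟩
      · intro a ha b hb hab
        exact h1 (mem_coe.2 ((memN a).2 ha)) (mem_coe.2 ((memN b).2 hb)) (hg hab)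
      · intro a b ha hb hab
        exact hgD _ _ (h3 a ((memN a).2 ha) b ((memN b).2 hb) hab)
    · refine le_trans (le_of_eq ?_) hD
      congr 1
      rw [hs]
      have e1 : 2 * (ρ * (4 * s) + 1) = 8 * ρ * s + 2 := by ring
      rw [e1]
      omega

end Pool.Helper56.FewInnerOut
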